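import Pool.Agent.H20.PDM.Lower
import Pool.Agent.H20.PDM.Upper

/-!
MP_2e3c73_gt: the cohomological version of the Kotschick invariant of `ℤ^n`.

Credit: the explicit 4-form of the upper bound is due to helper73; lower bound and
formalization by helper20.
-/

namespace Pool.Agent.Results.MP_2e3c73_gt.CohomologicalBounds

open Pool.Agent.H20.PDM Filter Topology

lemma values_nonempty_small {n : ℕ} (hn : n < 2) : (values n).Nonempty := by
  refine ⟨_, Empty, inferInstance, inferInstance,
    { form := 0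
      cup := 0
      form_symm := fun a => a.elim
      form_unimodular := by simp
      isCup := ⟨fun i => rfl, fun i j => by simp, fun i j k l => by simp [pair]⟩
      isSplit := ⟨0, fun i j k l => by
        have h1 : i = j := by
          apply Fin.ext
          omega
        subst h1
        simp [coeff]⟩ }, rfl⟩

lemma values_nonempty (n : ℕ) : (values n).Nonempty := by
  rcases lt_or_ge n 2 with h | h
  · exact values_nonempty_small h
  · exact ⟨_, upper_bound h⟩

lemma lower {n : ℕ} {d : ℤ} (hd : d ∈ values n) : 2 * ((2 : ℤ) ^ (Nat.clog 2 n) - n) ≤ d := by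
  obtain ⟨ι, _, _, M, rfl⟩ := hd
  exact M.lower_bound

lemma bddBelow (n : ℕ) : BddBelow (values n) := ⟨_, fun _ hd => lower hd⟩

lemma isLeast (n : ℕ) : IsLeast (values n) (pCoh n) :=
  ⟨Int.csInf_mem (values_nonempty n) (bddBelow n), fun _ hd => csInf_le (bddBelow n) hd⟩

lemma upper {n : ℕ} (hn : 2 ≤ n) : pCoh n ≤ 2 * n - 4 := (isLeast n).2 (upper_bound hn)

lemma clog_pow_add_one (k : ℕ) : Nat.clog 2 (2 ^ k + 1) = k + 1 := by
  have hp : 1 ≤ 2 ^ k := Nat.one_le_two_pow
  refine le_antisymm (Nat.clog_le_of_le_pow ?_) ((Nat.lt_clog_iff_pow_lt (by norm_num)).mpr ?_)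
  · rw [pow_succ]
    omega
  · omega

lemma eq_special (k : ℕ) : pCoh (2 ^ k + 1) = 2 * (2 ^ k + 1) - 4 := by
  have hp : 1 ≤ 2 ^ k := Nat.one_le_two_pow
  refine le_antisymm ?_ ?_
  · have := upper (n := 2 ^ k + 1) (by omega)
    push_cast at this
    exact this
  · have := lower (isLeast (2 ^ k + 1)).1
    rw [clog_pow_add_one] at this
    push_cast at this
    rw [pow_succ] at this
    linarith

lemma nonneg {n : ℕ} : 0 ≤ pCoh n := by
  have h1 := lower (isLeast n).1
  have h2 : n ≤ 2 ^ (Nat.clog 2 n) := Nat.le_pow_clog (by norm_num) n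
  have h3 : (n : ℤ) ≤ 2 ^ (Nat.clog 2 n) := by exact_mod_cast h2
  linarith

/-- **Bounds for the cohomological version of the Kotschick invariant of `ℤ^n`.** Over all
cohomology models with `H¹ = ℤ^n`, the least value `pCoh n` of `χ - σ` exists; it is at least
`2 (2^⌈log₂ n⌉ - n)`, at most `2 n - 4` for `n ≥ 2`, equal to `2 n - 4` for `n = 2^k + 1`;
in particular `pCoh n / n² → 0` and `limsup pCoh n / n = 2`. -/
theorem result :
    (∀ n : ℕ, IsLeast (values n) (pCoh n)) ∧
    (∀ n : ℕ, 2 * ((2 : ℤ) ^ (Nat.clog 2 n) - n) ≤ pCoh n) ∧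
    (∀ n : ℕ, 2 ≤ n → pCoh n ≤ 2 * n - 4) ∧
    (∀ k : ℕ, pCoh (2 ^ k + 1) = 2 * (2 ^ k + 1) - 4) ∧
    Tendsto (fun n : ℕ => (pCoh n : ℝ) / (n : ℝ) ^ 2) atTop (𝓝 0) ∧
    limsup (fun n : ℕ => (pCoh n : ℝ) / (n : ℝ)) atTop = 2 := by
  have hle2 : ∀ n : ℕ, 2 ≤ n → (pCoh n : ℝ) / (n : ℝ) ≤ 2 := by
    intro n hn
    have h1 : (pCoh n : ℝ) ≤ 2 * n - 4 := by exact_mod_cast upper hn
    have h2 : (0 : ℝ) < n := by positivity
    rw [div_le_iff₀ h2]
    linarith
  have h0 : ∀ n : ℕ, (0 : ℝ) ≤ (pCoh n : ℝ) := fun n => by exact_mod_cast nonneg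
  refine ⟨isLeast, fun n => lower (isLeast n).1, fun n hn => upper hn, eq_special, ?_, ?_⟩
  · have hlim : Tendsto (fun n : ℕ => (2 : ℝ) / (n : ℝ)) atTop (𝓝 0) :=
      tendsto_const_div_atTop_nhds_zero_nat 2
    refine squeeze_zero' (Eventually.of_forall fun n => by have := h0 n; positivity) ?_ hlim
    filter_upwards [eventually_ge_atTop 2] with n hn
    have h2 : (0 : ℝ) < n := by positivity
    have h3 := hle2 n hn
    rw [pow_two, ← div_div]
    exact div_le_div_of_nonneg_right h3 h2.le
  · have hub : IsBoundedUnder (· ≤ ·) atTop (fun n : ℕ => (pCoh n : ℝ) / (n : ℝ)) :=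
      ⟨2, by
        rw [eventually_map]
        filter_upwards [eventually_ge_atTop 2] with n hn using hle2 n hn⟩
    have hlb : IsCoboundedUnder (· ≤ ·) atTop (fun n : ℕ => (pCoh n : ℝ) / (n : ℝ)) := by
      refine IsBoundedUnder.isCoboundedUnder_le ⟨0, ?_⟩
      rw [eventually_map]
      exact Eventually.of_forall fun n => by
        have := h0 n
        positivity
    refine le_antisymm ?_ ?_
    · exact limsup_le_of_le hlb (by
        filter_upwards [eventually_ge_atTop 2] with n hn using hle2 n hn)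
    · refine le_of_forall_lt fun b hb => ?_
      -- choose a value between
      obtain ⟨c, hbc, hc⟩ := exists_between hb
      refine lt_of_lt_of_le hbc (le_limsup_of_frequently_le ?_ hub)
      rw [frequently_atTop]
      intro N
      -- large power of two
      have hlim : Tendsto (fun k : ℕ => (2 : ℝ) - 4 / ((2 : ℝ) ^ k + 1)) atTop (𝓝 (2 - 0)) := by
        refine tendsto_const_nhds.sub ?_
        refine Tendsto.div_atTop tendsto_const_nhds ?_
        exact tendsto_atTop_add_const_right _ _ (tendsto_pow_atTop_atTop_of_one_lt (by norm_num))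
      rw [sub_zero] at hlim
      obtain ⟨k, hk1, hk2⟩ := ((hlim.eventually (lt_mem_nhds hc)).and
        (eventually_ge_atTop N)).exists
      refine ⟨2 ^ k + 1, ?_, ?_⟩
      · have : k < 2 ^ k := Nat.lt_two_pow_self
        omega
      · have h3 : (pCoh (2 ^ k + 1) : ℝ) = 2 * ((2 : ℝ) ^ k + 1) - 4 := by
          rw [eq_special]
          push_cast
          ring
        rw [h3]
        push_cast
        have h4 : (0 : ℝ) < (2 : ℝ) ^ k + 1 := by positivity
        rw [sub_div, mul_div_assoc, div_self h4.ne', mul_one]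
        exact hk1.le

end Pool.Agent.Results.MP_2e3c73_gt.CohomologicalBounds
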